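import Pool.Agent.Lib.MP_346ebc_an.Core
import Pool.Agent.Lib.MP_346ebc_an.Mfd

/-! Scaled gap potential bound for free homotopy decompositions of loops and for their Hurewicz
class. -/

open scoped Manifold ContDiff Topology ENNReal NNReal Bundle
open Set Bundle Pool.Agent.Lib.MP_346ebc_an

namespace Pool.Agent.Results.MP_346ebc_an.Decomposition

theorem result (E : Type) [NormedAddCommGroup E] [NormedSpace ℝ E] [FiniteDimensional ℝ E]
    (N : Type) [EMetricSpace N] [CompactSpace N] [ChartedSpace E N] [IsManifold 𝓘(ℝ, E) ∞ N]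
    [RiemannianBundle (fun x : N => TangentSpace 𝓘(ℝ, E) x)]
    [IsContMDiffRiemannianBundle 𝓘(ℝ, E) ∞ E (fun x : N => TangentSpace 𝓘(ℝ, E) x)]
    [IsRiemannianManifold 𝓘(ℝ, E) N] :
    ∃ ε₀ : ℝ, 0 < ε₀ ∧ ∀ ε : ℝ, 0 < ε → ε < ε₀ → ∀ f : C(Circle, N), ∃ l : List (Piece (f 1)),
      cls (loop f) = (l.map fun x => cls x.conj).prod ∧
      (l.map fun x => len x.g).sum ≤ 32 / 3 * energy ε f ∧
      ∀ (om : (x : N) → TangentSpace 𝓘(ℝ, E) x →L[ℝ] ℝ) (L : ℝ≥0), ClosedForm E om →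
        (∀ (x : N) (v : TangentSpace 𝓘(ℝ, E) x), |om x v| ≤ L * ‖v‖) →
        ∀ g : C(Circle, N), ContMDiff (𝓡 1) 𝓘(ℝ, E) 1 g → g.Homotopic f →
          ENNReal.ofReal |hur E g om| ≤ L * (l.map fun x => len x.g).sum := by
  obtain ⟨δ, hδ, h⟩ := exists_box E N
  obtain ⟨r, -, hr, hrδ⟩ := ENNReal.lt_iff_exists_real_btwn.1 hδ
  rw [ENNReal.ofReal_pos] at hr
  refine ⟨r / 2, half_pos hr, fun ε hε hεr f => ?_⟩
  have h2 : 2 * ENNReal.ofReal ε < δ := by
    rw [← ENNReal.ofReal_ofNat, ← ENNReal.ofReal_mul zero_le_two]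
    exact (ENNReal.ofReal_le_ofReal (by linarith)).trans_lt hrδ
  obtain ⟨l, h3, h4⟩ := dec_loop hε (fun a b => exists_short E a b) (fun a b s t hs ht => by
    obtain ⟨x, ρ, h5, h6⟩ := h a
    exact box_htpy h5 s t (fun y => h6 (Metric.mem_eball'.2 ((hs y).trans_lt h2)))
      fun y => h6 (Metric.mem_eball'.2 ((ht y).trans_lt h2))) f
  refine ⟨l, h3, h4, fun om L ho hL g hg hgf => ?_⟩
  obtain ⟨w, η, hw, h5⟩ := exists_coc (om := om) ho hL
  have h6 := ((h5 (fun s : ℝ => g (Circle.exp s)) (hg.comp contMDiff_circleExp)).comp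
    (φ := fun t : unitInterval => 2 * Real.pi * (t : ℝ)) (by fun_prop)).per_eq
  simp only [Function.comp_apply, Icc.coe_one, Icc.coe_zero, mul_one, mul_zero,
    intervalIntegral.integral_same, sub_zero] at h6
  have h7 : hur E g om = per w (loop f) := h6.symm.trans (hw.per_free hgf)
  rw [h7]
  exact hw.per_list l _ h3

end Pool.Agent.Results.MP_346ebc_an.Decomposition
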